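import Pool.Agent.NormalDefect.Lower

open Matrix Pool.Agent.NormalDefect

namespace Pool.Agent.Results.MP_a6de22_an.Counterexample

/-- **Counterexample to the implication `nd(A) = ε(A) + 1 ⟹ nd(Ã) = ε(Ã) + 1`.**

For all reals `α > β > 0` take `n = 4` and `(a_1, a_2, a_3, a_4) = (β, β, α, β)`.  Then the cyclic
weighted shift `A = cyc a` has `ε(A) = 1` and `nd(A) = 2 = ε(A) + 1`, while the truncated shift
`Ã = trunc a` has `ε(Ã) = 2` and `nd(Ã) = 2 = ε(Ã)`, so `nd(Ã) ≠ ε(Ã) + 1`. -/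
theorem result {α β : ℝ} (hβ : 0 < β) (hαβ : β < α) :
    (eps (cyc ![(β : ℂ), β, α, β]) = 1 ∧ nd (cyc ![(β : ℂ), β, α, β]) = 2) ∧
    (eps (trunc ![(β : ℂ), β, α, β]) = 2 ∧ nd (trunc ![(β : ℂ), β, α, β]) = 2) := by
  refine ⟨⟨?_, ?_⟩, ⟨?_, ?_⟩⟩
  · rw [cyc_eq]; exact eps_Ac hβ hαβ
  · rw [cyc_eq]; exact nd_Ac hβ hαβ
  · rw [trunc_eq]; exact eps_At hβ hαβ
  · rw [trunc_eq]; exact nd_At hβ hαβ

end Pool.Agent.Results.MP_a6de22_an.Counterexample
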